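import Pool.Agent.H559.SI.BroF

set_option autoImplicit false

/-!
# Brocard's counts in the random sieve model: the law, the minimal order and the maximal order

For every prime `q` a residue class `a q` modulo `q` is drawn uniformly and independently. The random primes are the
integers `v ≥ 3` which are, for all primes `q ≤ z v`, not in the class `0` modulo `q` if `q ≤ W v`, and not in the class
`a q` modulo `q` if `q > W v`. This is the model of Banks, Ford and Tao (*Large prime gaps and probabilistic models*) in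
which the primes up to the cut `W v` sieve out the class `0` as they do for the true primes. The sieving limit `z` is any
nondecreasing function for which `∏_{q ≤ z v} (1 - 1 / q)` is asymptotic to `1 / log v` (the choice `zBFT` of Banks, Ford and
Tao is one of them), and the cut `W` is any nondecreasing function between `log v · log log v` and all the powers
`(log v) ^ (1 + e)`, for example `wEx v = ⌊log v · (log (log v + 1)) ^ 2⌋`.

Let `r 0 < r 1 < …` be the random primes, and let `N d n` be the number of the random primes strictly between `(r n) ^ d` and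
`(r (n + 1)) ^ d` (`d = 2`: the numbers of Brocard's conjecture). The theorem: almost surely, for every `d ≥ 2`
* `N d n` is asymptotic to `(r n) ^ (d - 1) · (r (n + 1) - r n) / log (r n)`;
* the minimal order of `N d n` is `2 (r n) ^ (d - 1) / log (r n)`: for every `ε > 0` one has
  `N d n ≥ (2 - ε) (r n) ^ (d - 1) / log (r n)` for all large `n` and `N d n ≤ (2 + ε) (r n) ^ (d - 1) / log (r n)` for
  infinitely many `n` (the random twin primes);
* the maximal order of `N d n` is `(r n) ^ (d - 1) · (log (r n)) ^ (1 + o(1))`: for every `t > 1` one has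
  `N d n ≤ (r n) ^ (d - 1) (log (r n)) ^ t` for all large `n`, and for every `lam < 1` one has
  `N d n ≥ lam (r n) ^ (d - 1) log (r n)` for infinitely many `n` (the large gaps).

In particular `N 2 n ≥ 4` (and `N 2 n ≥ K` for every `K`) for all large `n`.
-/

open MeasureTheory ProbabilityTheory Filter Topology

namespace Pool.Agent.Results.MP_739ba1_nt.BrocardRandomSieve

/-- `V m = ∏ (1 - 1 / q)` over the primes `q ≤ m` -/
noncomputable def V (m : ℕ) : ℝ := ∏ q ∈ (Finset.range (m + 1)).filter Nat.Prime, (1 - 1 / (q : ℝ))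

/-- the classes `a q` are independent, and `a q` is uniform on `0, …, q - 1` for every prime `q` -/
structure Model {Ω : Type} [MeasurableSpace Ω] (P : Measure Ω) (a : ℕ → Ω → ℕ) : Prop where
  measurable : ∀ q, Measurable (a q)
  independent : iIndepFun a P
  uniform : ∀ q, q.Prime → ∀ r < q, P.real {ω | a q ω = r} = 1 / q

/-- the sieving limit of Banks, Ford and Tao: the largest `m` with `∏_{q ≤ m} (1 - 1 / q)⁻¹ ≤ log n` -/
noncomputable def zBFT (n : ℕ) : ℕ := sSup {m : ℕ | (V m)⁻¹ ≤ Real.log n}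

/-- the admissible sieving limits: the density of the random primes near `v` is asymptotic to `1 / log v` -/
def Limit (z : ℕ → ℕ) : Prop := Monotone z ∧ Tendsto (fun v => V (z v) * Real.log v) atTop (𝓝 1)

/-- the admissible cuts -/
def Cut (W : ℕ → ℕ) : Prop :=
  Monotone W ∧ Tendsto (fun v : ℕ => (W v : ℝ) / (Real.log v * Real.log (Real.log v))) atTop atTop ∧
    ∀ e : ℝ, 0 < e → ∀ᶠ v : ℕ in atTop, (W v : ℝ) ≤ Real.log v ^ (1 + e)

/-- an example of a cut -/
noncomputable def wEx (v : ℕ) : ℕ := ⌊Real.log v * Real.log (Real.log v + 1) ^ 2⌋₊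

/-- the set of the random primes of a sample -/
def R {Ω : Type} (z W : ℕ → ℕ) (a : ℕ → Ω → ℕ) (ω : Ω) : Set ℕ :=
  {v | 3 ≤ v ∧ ∀ q ≤ z v, q.Prime → v % q ≠ if q ≤ W v then 0 else a q ω}

/-- the `n`-th random prime, `n = 0, 1, 2, …` -/
noncomputable def r {Ω : Type} (z W : ℕ → ℕ) (a : ℕ → Ω → ℕ) (ω : Ω) (n : ℕ) : ℕ := Nat.nth (· ∈ R z W a ω) n

/-- the number of the random primes strictly between the `d`-th powers of the `n`-th and of the next random prime -/
noncomputable def N {Ω : Type} (z W : ℕ → ℕ) (a : ℕ → Ω → ℕ) (ω : Ω) (d n : ℕ) : ℕ :=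
  {q : ℕ | r z W a ω n ^ d < q ∧ q < r z W a ω (n + 1) ^ d ∧ q ∈ R z W a ω}.ncard

theorem result :
    (∃ (Ω : Type) (_ : MeasurableSpace Ω) (P : Measure Ω) (a : ℕ → Ω → ℕ), Model P a) ∧ Limit zBFT ∧ Cut wEx ∧
    ∀ z : ℕ → ℕ, Limit z → ∀ W : ℕ → ℕ, Cut W →
      ∀ (Ω : Type) [MeasurableSpace Ω] (P : Measure Ω) (a : ℕ → Ω → ℕ), Model P a →
        ∀ᵐ ω ∂P, (R z W a ω).Infinite ∧ ∀ d : ℕ, 2 ≤ d →
          Tendsto (fun n => (N z W a ω d n : ℝ) * Real.log (r z W a ω n) /
            ((r z W a ω n : ℝ) ^ (d - 1) * ((r z W a ω (n + 1) : ℝ) - r z W a ω n))) atTop (𝓝 1) ∧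
          (∀ ε : ℝ, 0 < ε →
            (∀ᶠ n in atTop, (2 - ε) * ((r z W a ω n : ℝ) ^ (d - 1) / Real.log (r z W a ω n)) ≤ N z W a ω d n) ∧
            ∃ᶠ n in atTop, (N z W a ω d n : ℝ) ≤ (2 + ε) * ((r z W a ω n : ℝ) ^ (d - 1) / Real.log (r z W a ω n))) ∧
          (∀ t : ℝ, 1 < t → ∀ᶠ n in atTop,
            (N z W a ω d n : ℝ) ≤ (r z W a ω n : ℝ) ^ (d - 1) * Real.log (r z W a ω n) ^ t) ∧
          ∀ lam : ℝ, lam < 1 → ∃ᶠ n in atTop,
            lam * ((r z W a ω n : ℝ) ^ (d - 1) * Real.log (r z W a ω n)) ≤ N z W a ω d n := by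
  classical
  refine ⟨?_, ⟨Pool.Agent.T2H32.BF.z0_mono, Pool.Agent.T2H32.BF.z0_lim⟩,
    ⟨Pool.Agent.H559.GU.cut_WL.mono, Pool.Agent.H559.GU.cut_WL.low, Pool.Agent.H559.GU.cut_WL.up⟩, ?_⟩
  · obtain ⟨Ω, i, P, a, h⟩ := Pool.Agent.T2H32.BF.exists_model
    exact ⟨Ω, i, P, a, h.measurable, h.independent, h.uniform⟩
  · intro z hz W hW Ω _ P a hmod
    have hWL : Pool.Agent.H559.GU.CutL W := ⟨hW.1, hW.2.1, hW.2.2⟩
    have hcut := Pool.Agent.H559.GU.cut hWL
    have h : Pool.Agent.T2H32.BF.Model P a := ⟨hmod.measurable, hmod.independent, hmod.uniform⟩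
    have hX : Pool.Agent.H559.PV.GP (Polynomial.X : Polynomial ℤ) :=
      ⟨Polynomial.irreducible_X, by rw [Polynomial.natDegree_X]; exact one_pos, by rw [Polynomial.leadingCoeff_X]; exact one_pos⟩
    have hNF : Pool.Agent.H559.GU.NF (Polynomial.X : Polynomial ℤ) := by
      intro p hp
      refine ⟨1, ?_⟩
      rw [Polynomial.eval_X]
      intro hcon
      have h2 := Int.le_of_dvd (by norm_num) hcon
      have h3 := hp.two_le
      push_cast at h2
      omega
    have hCF : ∀ x, Pool.Agent.H559.HY.CF {(Polynomial.X : Polynomial ℤ)} x = 1 := by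
      intro x
      unfold Pool.Agent.H559.HY.CF
      refine Finset.prod_eq_one fun p hp => ?_
      rw [Finset.mem_filter] at hp
      have hpp := hp.2
      have e : Pool.Agent.H559.HY.omF {(Polynomial.X : Polynomial ℤ)} p = 1 := by
        unfold Pool.Agent.H559.HY.omF
        rw [Finset.card_eq_one]
        refine ⟨0, ?_⟩
        ext s
        rw [Finset.mem_filter, Finset.mem_range, Finset.mem_singleton, Finset.prod_singleton, Polynomial.eval_X]
        constructor
        · rintro ⟨h1, h2⟩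
          exact Nat.eq_zero_of_dvd_of_lt (Int.natCast_dvd_natCast.1 h2) h1
        · intro h1
          subst h1
          exact ⟨hpp.pos, by simp⟩
      rw [e, Finset.card_singleton, Nat.cast_one, pow_one]
      have h2 : (2 : ℝ) ≤ p := by exact_mod_cast hpp.two_le
      have h3 : 1 / (p : ℝ) ≤ 1 / 2 := one_div_le_one_div_of_le (by norm_num) h2
      exact div_self (by linarith)
    have hCt : Tendsto (Pool.Agent.H559.HY.CF {(Polynomial.X : Polynomial ℤ)}) atTop (𝓝 1) := by
      refine tendsto_const_nhds.congr fun x => (hCF x).symm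
    filter_upwards [Pool.Agent.H559.HY.ae_OK h z W hz hcut, Pool.Agent.H559.GP.allF h z W hz hcut,
      Pool.Agent.H559.GU.all_ae h z hz hWL] with ω hω1 hω2 hω3
    have e : R z W a ω = Pool.Agent.H559.HY.RS z W (fun p => a p ω) := rfl
    have hwin : ∀ t : ℝ, 2 < t → ∀ᶠ n : ℕ in atTop, ∃ m : ℕ, n < m ∧ (m : ℝ) ≤ n + Real.log n ^ t ∧ m ∈ R z W a ω := by
      intro t ht
      filter_upwards [hω3 Polynomial.X hX hNF t ht] with n hn
      obtain ⟨m, h1, h2, h3⟩ := hn
      refine ⟨m, h1, h2, ?_⟩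
      unfold Pool.Agent.H559.GU.G at h3
      rw [Polynomial.eval_X, Int.natAbs_natCast] at h3
      exact h3
    have hinf : (R z W a ω).Infinite := by
      rw [Set.infinite_iff_frequently_cofinite, Nat.cofinite_eq_atTop, frequently_atTop]
      intro N
      obtain ⟨n0, hn0⟩ := eventually_atTop.1 (hwin 3 (by norm_num))
      obtain ⟨m, h1, _, h3⟩ := hn0 (max n0 N) (le_max_left _ _)
      exact ⟨m, (le_max_right n0 N).trans h1.le, h3⟩
    have hpl : ∀ m, Pool.Agent.H559.GP.Place (Pool.Agent.H559.HY.RS z W (fun p => a p ω)) {Polynomial.X} m ↔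
        m ∈ R z W a ω := fun m => by
      unfold Pool.Agent.H559.GP.Place
      simp only [Finset.mem_singleton, forall_eq, Polynomial.eval_X, Int.natAbs_natCast]
      exact Iff.rfl
    have hbig : ∀ lam : ℝ, lam < 1 → ∀ᶠ X : ℕ in atTop, ∃ m m' : ℕ, m < m' ∧ m ≤ X ∧ m ∈ R z W a ω ∧ m' ∈ R z W a ω ∧
        (∀ u, m < u → u < m' → u ∉ R z W a ω) ∧ lam * Real.log X * Real.log X ≤ (m' : ℝ) - m := by
      intro lam hlam
      have h1 := Pool.Agent.H559.GP.consec (Pool.Agent.H559.HY.RS z W (fun p => a p ω)) {Polynomial.X} (fun N => by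
        obtain ⟨n0, hn0⟩ := eventually_atTop.1 (hwin 3 (by norm_num))
        obtain ⟨m, h1, _, h3⟩ := hn0 (max n0 N) (le_max_left _ _)
        exact ⟨m, lt_of_le_of_lt (le_max_right n0 N) h1, (hpl m).2 h3⟩) 1 one_pos
        (hω2 {Polynomial.X} (fun f hf => by rw [Finset.mem_singleton.1 hf]; exact hX) (Finset.singleton_nonempty _) 1 hCt
          one_pos) lam hlam
      filter_upwards [h1] with X hX1
      obtain ⟨m, m', h2, h3, h4, h5, h6, h7⟩ := hX1
      refine ⟨m, m', h2, h3, (hpl m).1 h4, (hpl m').1 h5, fun u hu hu' hcon => h6 u hu hu' ((hpl u).2 hcon), ?_⟩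
      refine le_trans (le_of_eq ?_) h7
      unfold Pool.Agent.H559.PV.un
      rw [Finset.prod_singleton, Polynomial.natDegree_X]
      push_cast
      ring
    have htw : ∀ N : ℕ, ∃ n, N < n ∧ n ∈ R z W a ω ∧ n + 2 ∈ R z W a ω := by
      intro N
      obtain ⟨n, h1, h2⟩ := Pool.Agent.H559.SI.inf_tuple z W hz hcut (fun p => a p ω) hω1 ![0, 2] (by
        intro i j hij
        fin_cases i <;> fin_cases j <;> simp_all) Pool.Agent.H559.SI.twin_adm N
      exact ⟨n, h1, h2 0, h2 1⟩
    refine ⟨hinf, fun d hd => ?_⟩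
    exact Pool.Agent.H559.SI.final (R z W a ω) hinf
      (fun A ε hA hε => Pool.Agent.H559.SI.law1 z W hz hcut (fun p => a p ω) hω1 A ε hA hε)
      (Pool.Agent.H559.SI.odd_ev z W hz hcut (fun p => a p ω)) htw hwin hbig d hd

end Pool.Agent.Results.MP_739ba1_nt.BrocardRandomSieve
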