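import Mathlib
import Pool.Agent.H542.NJ.Fin
import Pool.Agent.H985.Cor.Base

/-!
# Almost primes with prescribed parities at common offsets from several squares

`K` is a finite field with an even number `q` of elements. Let `A_1, …, A_k` be distinct monic polynomials
(for example the irreducible polynomials of some degree), of degrees between `h / 2` and `q ^ (θ h)`,
`h` even, such that their squares form an admissible tuple. For large `h`, large `m ≤ κ h` and all signs
`σ_i` the number of the `u` with `deg u < h` such that no `A_i² + u` has an irreducible factor of degree at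
most `m` and `μ (A_i² + u) = σ_i` for all `i` is `(2 ^ (-k) + O(ε)) q ^ h V`, `V` the product of the
`1 - ω(P) / |P|` over the irreducible `P` of degree at most `m`, `V ≥ c / m ^ k`. So intervals of length
`(log x) ^ C` at `k` different squares of size `x` contain almost primes with prescribed parities at the
same offsets, and the events at different squares are asymptotically independent.

Idea. `u = a² + X b²`, `A_i² + u = (A_i + a)² + X b²`. For typical fixed `b` the Möbius function of
`A_i² + u` is, as a function of `a` in a progression, a product of functions modulo the squares of the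
primes dividing `b` and of an additive phase; the part of `b` prime to the `A_i - A_j` is large since
these have few prime divisors.

Authors: this project (tuples at different squares: statements, adaptations, assembly): helper542,
from project NS (helper542, 289, 618, 213, 276, 769), which rests on helper560, 524, 740, 969, 980
(product formula near squares) and on the method of `MP_8923e7_nt.ParityEvenCharacteristic` (helper985,
604, 524, 183, 675, 996, 627, 233, 225).
-/

namespace Pool.Agent.Results.MP_739ba1_nt.CommonOffsetsOfSquares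

open Polynomial

open Classical in
/-- The Möbius function of `K[X]`: `(-1) ^ k` if `F` is a nonzero constant times a product of `k`
distinct monic irreducible polynomials, and `0` for all other `F`. -/
noncomputable def moebius {K : Type} [Field K] (F : K[X]) : ℤ :=
  if Squarefree F then (-1) ^ Multiset.card (UniqueFactorizationMonoid.factors F) else 0

/-- The squares of the `A i` are an admissible tuple: for every irreducible `P` some `x` is such that
`P` divides none of the `x + (A i) ^ 2`. -/
def Admissible {K : Type} [Field K] {k : ℕ} (A : Fin k → K[X]) : Prop :=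
  ∀ P : K[X], P.Monic → Irreducible P → ∃ x : K[X], ∀ i, ¬ P ∣ x + A i ^ 2

/-- The monic irreducible polynomials of degree at most `m`. -/
def primesUpTo (K : Type) [Field K] (m : ℕ) : Set K[X] :=
  {P | P.Monic ∧ Irreducible P ∧ P.natDegree ≤ m}

/-- The number of the residue classes modulo `P` of the squares of the `A i`. -/
noncomputable def numClasses {K : Type} [Field K] {k : ℕ} (A : Fin k → K[X]) (P : K[X]) : ℕ :=
  (Set.range fun i => (A i ^ 2) %ₘ P).ncard

/-- The product of `1 - ω(P) / |P|` over the primes of degree at most `m`. -/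
noncomputable def density {K : Type} [Field K] [Fintype K] {k : ℕ} (A : Fin k → K[X]) (m : ℕ) : ℝ :=
  ∏ᶠ P ∈ primesUpTo K m, (1 - (numClasses A P : ℝ) / (Fintype.card K : ℝ) ^ P.natDegree)

/-- The offsets `u` of degree less than `h` such that no `(A i) ^ 2 + u` has an irreducible factor of
degree at most `m` and `μ ((A i) ^ 2 + u) = σ i` for all `i`. -/
def Offsets {K : Type} [Field K] {k : ℕ} (h m : ℕ) (A : Fin k → K[X]) (σ : Fin k → ℤ) : Set K[X] :=
  {u | u.degree < (h : WithBot ℕ) ∧
    (∀ i, ∀ P : K[X], P.Monic → Irreducible P → P ∣ A i ^ 2 + u → m < P.natDegree) ∧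
    ∀ i, moebius (A i ^ 2 + u) = σ i}

section aux

variable {K : Type} [Field K] [Fintype K] [CharP K 2]
set_option linter.unusedSectionVars false

theorem sq_sub {l : ℕ} (A : K[X]) : (A - X ^ l) ^ 2 = A ^ 2 + X ^ (l + l) := by
  rw [CharTwo.sub_eq_add, CharTwo.add_sq]
  ring

theorem sq_inj {A B : K[X]} (h : A ^ 2 = B ^ 2) : A = B := by
  have h1 : (A - B) ^ 2 = 0 := by
    rw [CharTwo.sub_eq_add, CharTwo.add_sq, h]
    exact CharTwo.add_self_eq_zero _
  exact sub_eq_zero.1 (pow_eq_zero_iff (two_ne_zero)|>.1 h1)

theorem density_eq {k l : ℕ} (A : Fin k → K[X]) (m : ℕ) :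
    density A m = Pool.Agent.H542.NS.VV (fun i => (A i - X ^ l) ^ 2 + 0) m := by
  classical
  unfold density Pool.Agent.H542.NS.VV
  have h1 : primesUpTo K m = ((Pool.Agent.H694.Typ.PU K m : Finset K[X]) : Set K[X]) := by
    ext P
    rw [Finset.mem_coe, Pool.Agent.H694.Typ.mem_PU]
    rfl
  rw [h1, finprod_mem_coe_finset]
  refine Finset.prod_congr rfl fun P hP => ?_
  have h2 : ((Pool.Agent.H996.Par.Om (fun i => (A i - X ^ l) ^ 2 + 0) P : Finset K[X]) : Set K[X]) =
      (fun y : K[X] => y + (X ^ (l + l)) %ₘ P) '' (Set.range fun i => (A i ^ 2) %ₘ P) := by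
    unfold Pool.Agent.H996.Par.Om
    rw [Finset.coe_image, Finset.coe_univ, Set.image_univ, ← Set.range_comp]
    congr 1
    funext i
    show (-((A i - X ^ l) ^ 2 + 0)) %ₘ P = A i ^ 2 %ₘ P + X ^ (l + l) %ₘ P
    rw [CharTwo.neg_eq, add_zero, sq_sub, add_modByMonic]
  have h3 : numClasses A P = (Pool.Agent.H996.Par.Om (fun i => (A i - X ^ l) ^ 2 + 0) P).card := by
    unfold numClasses
    rw [← Set.ncard_coe_finset, h2, Set.ncard_image_of_injective]
    exact add_left_injective _
  rw [h3]

end aux

/-- **Almost primes with prescribed parities at common offsets from several squares.** -/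
theorem result (K : Type) [Field K] [Fintype K] (hK : Even (Fintype.card K)) (k : ℕ) (_hk : 2 ≤ k) :
    ∃ c : ℝ, 0 < c ∧ ∀ ε : ℝ, 0 < ε →
    ∃ κ θ : ℝ, 0 < κ ∧ 0 < θ ∧ ∃ M H : ℕ, ∀ h m : ℕ, H ≤ h → M ≤ m → (m : ℝ) ≤ κ * h → Even h →
      ∀ A : Fin k → K[X], (∀ i, (A i).Monic) → Function.Injective A →
      (∀ i, h ≤ 2 * (A i).natDegree) →
      (∀ i, ((A i).natDegree : ℝ) ≤ (Fintype.card K : ℝ) ^ (θ * h)) → Admissible A →
      ∀ σ : Fin k → ℤ, (∀ i, σ i = 1 ∨ σ i = -1) →
        c / (m : ℝ) ^ k ≤ density A m ∧
        |((Offsets h m A σ).ncard : ℝ) - density A m * (Fintype.card K : ℝ) ^ h / 2 ^ k| ≤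
            ε * (density A m * (Fintype.card K : ℝ) ^ h) := by
  classical
  have := Pool.Agent.H985.Cor.charTwo_of_even hK
  obtain ⟨c, hc, h0⟩ := Pool.Agent.H542.NJ.cntJ Pool.Agent.H985.Par.s_sw
    Pool.Agent.H542.NJ.s_parJ Pool.Agent.H542.NJ.s_lowJ K k
  refine ⟨c, hc, fun ε hε => ?_⟩
  obtain ⟨κ, θ, hκ, hθ, M, H, h1⟩ := h0 ε hε
  refine ⟨κ, θ, hκ, hθ, M, H + 1, ?_⟩
  intro n m hn hm hmκ hev A hA hinj hnA hAd hadm σ hσ
  obtain ⟨l, hl⟩ := hev
  have hl2 : n / 2 = l := by omega
  have hq1 : (1 : ℝ) < Fintype.card K := by exact_mod_cast Fintype.one_lt_card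
  have hC : ∀ i, Pool.Agent.H542.NS.Cn n (A i - X ^ l) := by
    intro i
    have h3 := Pool.Agent.H542.NS.Cn_of (K := K) (n := n) ⟨l, hl⟩ (hA i) (by
      have := hnA i
      omega)
    rwa [hl2] at h3
  have h2 := h1 n m (by omega) hm hmκ ⟨l, hl⟩ (fun i => A i - X ^ l) hC (by
      intro i
      refine le_trans ?_ (hAd i)
      have h3 : (A i - X ^ l).natDegree ≤ (A i).natDegree := by
        refine (natDegree_sub_le _ _).trans (max_le le_rfl ?_)
        rw [natDegree_X_pow]
        have := hnA i
        omega
      exact_mod_cast h3) (fun _ => 0) (by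
      intro i j hij
      simp only [add_zero] at hij
      have h3 := sq_inj hij
      exact hinj (sub_left_injective h3)) (by
      intro i
      rw [natDegree_zero]
      omega) (by
      intro P hP hPi
      obtain ⟨x, hx⟩ := hadm P hP hPi
      refine ⟨x - X ^ (l + l), fun i => ?_⟩
      have h3 : x - X ^ (l + l) + ((A i - X ^ l) ^ 2 + 0) = x + A i ^ 2 := by
        rw [sq_sub]
        ring
      rw [h3]
      exact hx i) σ hσ
  rw [← density_eq] at h2
  have hX : (X ^ (l + l) : K[X]) + X ^ (l + l) = 0 := CharTwo.add_self_eq_zero _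
  have hshift : ∀ (f : K[X]) (i : Fin k), f + ((A i - X ^ l) ^ 2 + 0) =
      A i ^ 2 + (f + X ^ (l + l)) := by
    intro f i
    rw [sq_sub]
    ring
  have hcard : (Offsets n m A σ).ncard =
      ((Pool.Agent.H985.Par.Sfs K (fun i => (A i - X ^ l) ^ 2 + 0) n m).filter
        (fun f => ∀ i, Pool.Agent.H985.Chow.mob (f + ((A i - X ^ l) ^ 2 + 0)) = σ i)).card := by
    rw [← Set.ncard_coe_finset]
    symm
    refine Set.ncard_congr (fun f _ => f + X ^ (l + l)) ?_ ?_ ?_
    · intro f hf
      rw [Finset.mem_coe, Finset.mem_filter] at hf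
      unfold Pool.Agent.H985.Par.Sfs at hf
      rw [Finset.mem_filter, Pool.Agent.H694.Typ.mem_Mn] at hf
      obtain ⟨⟨⟨e1, e2⟩, e3⟩, e4⟩ := hf
      refine ⟨?_, ?_, ?_⟩
      · have e5 : f.degree = (X ^ (l + l) : K[X]).degree := by
          rw [degree_X_pow, degree_eq_natDegree e1.ne_zero, e2, hl]
        have e6 := degree_sub_lt_left e5 e1.ne_zero (by
          rw [e1.leadingCoeff, (monic_X_pow (l + l)).leadingCoeff])
        rw [CharTwo.sub_eq_add] at e6
        refine e6.trans_le ?_
        rw [degree_eq_natDegree e1.ne_zero, e2]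
      · intro i P hP hPi hd
        refine e3 i P hP hPi ?_
        show P ∣ f + ((A i - X ^ l) ^ 2 + 0)
        rw [hshift]
        exact hd
      · intro i
        have e5 := e4 i
        rw [hshift] at e5
        exact e5
    · intro f g _ _ h5
      exact add_right_cancel h5
    · rintro u ⟨e1, e2, e3⟩
      have hu : u.degree < ((l + l : ℕ) : WithBot ℕ) := by
        rw [← hl]
        exact e1
      have e5 : ∀ i : Fin k, (X ^ (l + l) + u) + ((A i - X ^ l) ^ 2 + 0) = A i ^ 2 + u := by
        intro i
        rw [hshift]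
        linear_combination hX
      refine ⟨X ^ (l + l) + u, ?_, ?_⟩
      · rw [Finset.mem_coe, Finset.mem_filter]
        unfold Pool.Agent.H985.Par.Sfs
        rw [Finset.mem_filter, Pool.Agent.H694.Typ.mem_Mn]
        refine ⟨⟨⟨monic_X_pow_add hu, ?_⟩, ?_⟩, ?_⟩
        · rw [natDegree_add_eq_left_of_degree_lt (by rw [degree_X_pow]; exact hu), natDegree_X_pow, hl]
        · intro i P hP hPi hd
          refine e2 i P hP hPi ?_
          have hd' : P ∣ (X ^ (l + l) + u) + ((A i - X ^ l) ^ 2 + 0) := hd
          rwa [e5] at hd'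
        · intro i
          rw [e5]
          exact e3 i
      · show X ^ (l + l) + u + X ^ (l + l) = u
        linear_combination hX
  rw [hcard]
  exact h2

end Pool.Agent.Results.MP_739ba1_nt.CommonOffsetsOfSquares
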